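import Mathlib
import Pool.Agent.P.MP_49c4d9_an.R1.HR

/-! The Cauchy transform of a nonzero density does not vanish almost everywhere. -/

set_option autoImplicit false

open MeasureTheory Metric Set Filter


namespace Pool.Agent.P.MP_65e938_an.Sub

open Pool.Agent.P.MP_f981b0_an.R1 (dbar cauchy pompeiu)

variable {Ω : Type*} [MeasurableSpace Ω] {ν : Measure Ω} [IsFiniteMeasure ν] {z : Ω → ℂ} {R : ℝ}

theorem conv_int (hz : Measurable z) {h : Ω → ℝ} (hh : Integrable h ν) {k : ℂ → ℝ}
    (hk : Integrable k) (hm : Measurable k) :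
    Integrable (fun p : ℂ × Ω => h p.2 * k (p.1 - z p.2)) (volume.prod ν) := by
  have h0 : AEStronglyMeasurable (fun p : ℂ × Ω => h p.2 * k (p.1 - z p.2)) (volume.prod ν) :=
    hh.1.comp_snd.mul (hm.comp (measurable_fst.sub (hz.comp measurable_snd))).aestronglyMeasurable
  refine (integrable_prod_iff' h0).2 ⟨Eventually.of_forall fun t => (hk.comp_sub_right (z t)).const_mul (h t), ?_⟩
  refine (hh.norm.mul_const (∫ l, ‖k l‖)).congr (Eventually.of_forall fun t => ?_)
  simp only [norm_mul]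
  rw [integral_const_mul, integral_sub_right_eq_self (fun l => ‖k l‖)]

/-- The truncated kernel. -/
noncomputable def kr (α r : ℝ) : ℂ → ℝ := (ball (0 : ℂ) r).indicator fun l => ‖l‖ ^ (-α)

theorem meas_kr (α r : ℝ) : Measurable (kr α r) :=
  Measurable.indicator (by fun_prop) measurableSet_ball

theorem int_kr {α : ℝ} (hα : α < 2) (r : ℝ) : Integrable (kr α r) := by
  refine (integrable_indicator_iff measurableSet_ball).2
    (integrableOn_ball_of_norm_le_rpow (E := ℂ) (μ := volume) (C := 1) (α := α)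
      (by simp) (by simpa using hα) (Eventually.of_forall fun x => ?_) ?_)
  · rw [one_mul, Real.norm_of_nonneg (by positivity)]
  · exact (by fun_prop : Measurable fun l : ℂ => ‖l‖ ^ (-α)).aestronglyMeasurable

omit [MeasurableSpace Ω] in
theorem kr_eq (hR : ∀ t, ‖z t‖ ≤ R) {α r : ℝ} {l : ℂ} (hl : ‖l‖ + R < r) (t : Ω) :
    kr α r (l - z t) = ‖z t - l‖ ^ (-α) := by
  rw [kr, indicator_of_mem, norm_sub_rev]
  rw [mem_ball_zero_iff]
  linarith [norm_sub_le l (z t), hR t]

theorem ae_memLp (hz : Measurable z) (hR : ∀ t, ‖z t‖ ≤ R) {g : Ω → ℂ} (hg : MemLp g 2 ν) :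
    ∀ᵐ l : ℂ, MemLp (fun t => g t / (z t - l)) (ENNReal.ofReal (4 / 3)) ν := by
  have h1 : MemLp g (ENNReal.ofReal (4 / 3)) ν := hg.mono_exponent (by
    rw [← ENNReal.ofReal_ofNat]
    exact ENNReal.ofReal_le_ofReal (by norm_num))
  have h0 : ENNReal.ofReal (4 / 3) ≠ 0 := by simp
  have ht : (ENNReal.ofReal (4 / 3)).toReal = 4 / 3 := ENNReal.toReal_ofReal (by norm_num)
  have h2 := h1.integrable_norm_rpow h0 ENNReal.ofReal_ne_top
  have h3 : ∀ᵐ l : ℂ, ∀ n : ℕ, Integrable
      (fun t => ‖g t‖ ^ (ENNReal.ofReal (4 / 3)).toReal * kr (4 / 3) n (l - z t)) ν :=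
    ae_all_iff.2 fun n =>
      (conv_int hz h2 (int_kr (by norm_num) n) (meas_kr _ _)).prod_right_ae
  filter_upwards [h3] with l hl
  obtain ⟨n, hn⟩ := exists_nat_gt (‖l‖ + R)
  refine (integrable_norm_rpow_iff (hg.1.div₀ ?_) h0 ENNReal.ofReal_ne_top).1
    ((hl n).congr (Eventually.of_forall fun t => ?_))
  · exact (hz.sub_const l).aestronglyMeasurable
  · simp only [kr_eq hR hn, ht, Pi.div_apply, norm_div]
    rw [Real.div_rpow (norm_nonneg _) (norm_nonneg _), Real.rpow_neg (norm_nonneg _)]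
    exact (div_eq_mul_inv _ _).symm

theorem ae_ne (hz : Measurable z) : ∀ᵐ l : ℂ, ∀ᵐ t ∂ν, z t ≠ l := by
  filter_upwards [(Measure.countable_meas_level_set_pos (μ := ν) hz).ae_notMem volume] with l hl
  rw [ae_iff]
  simpa using hl

theorem zero_of_cauchy (hz : MeasurableEmbedding z) (hR : ∀ t, ‖z t‖ ≤ R) {κ : Ω → ℂ}
    (hκ : Integrable κ ν) (h : ∀ᵐ l : ℂ, ∫ t, κ t / (z t - l) ∂ν = 0) : ∀ᵐ t ∂ν, κ t = 0 := by
  have he : ∀ t, Function.extend z κ 0 (z t) = κ t := fun t => hz.injective.extend_apply _ _ t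
  have hi : Integrable (Function.extend z κ 0) (ν.map z) :=
    hz.integrable_map_iff.2 (hκ.congr (Eventually.of_forall fun t => (he t).symm))
  have key := ae_eq_zero_of_integral_contDiff_smul_eq_zero hi.locallyIntegrable fun ψ h1 h2 => by
    rw [hz.integral_map]
    simp only [he]
    set G : ℂ → ℂ := fun l => (ψ l : ℂ) with hG
    have c1 : ContDiff ℝ 1 G := Complex.ofRealCLM.contDiff.comp (h1.of_le (by simp))
    obtain ⟨R₁, hR₁⟩ := h2.isCompact.isBounded.subset_ball 0
    have c2 : ∀ l, R₁ ≤ ‖l‖ → G l = 0 := fun l hl => by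
      have : l ∉ tsupport ψ := fun a => absurd (mem_ball_zero_iff.1 (hR₁ a)) (not_lt.2 hl)
      simp [hG, image_eq_zero_of_notMem_tsupport this]
    have c3 := MP_49c4d9_an.R1.dbar_continuous c1
    have c4 := MP_49c4d9_an.R1.dbar_eq_zero c2
    have c5 : HasCompactSupport (dbar G) :=
      HasCompactSupport.intro (isCompact_closedBall (0 : ℂ) (R₁ + 1)) fun l hl =>
        c4 l (not_le.1 (by simpa using hl)).le
    obtain ⟨B, hB⟩ := c3.bounded_above_of_compact_support c5
    have c6 : ∀ w, cauchy (dbar G) w = -(Real.pi * G w) := pompeiu (R₀ := R₁ + 1) (C := 0) c1 c4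
      fun l hl => by simp [c2 l (by linarith)]
    have c7 : Integrable (Function.uncurry fun (l : ℂ) (t : Ω) => dbar G l * (κ t / (z t - l)))
        (volume.prod ν) := by
      refine ((conv_int hz.measurable hκ.norm (int_kr (α := 1) (by norm_num) (R₁ + 1 + R))
        (meas_kr _ _)).const_mul B).mono' ?_ (Eventually.of_forall fun p => ?_)
      · exact c3.aestronglyMeasurable.comp_fst.mul (hκ.1.comp_snd.div₀
          ((hz.measurable.comp measurable_snd).sub measurable_fst).aestronglyMeasurable)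
      · change ‖dbar G p.1 * (κ p.2 / (z p.2 - p.1))‖ ≤ _
        rcases lt_or_ge ‖p.1‖ (R₁ + 1) with a | a
        · rw [kr_eq hR (by linarith), norm_mul, norm_div, Real.rpow_neg_one, div_eq_mul_inv]
          exact mul_le_mul_of_nonneg_right (hB _) (by positivity)
        · rw [c4 _ a, zero_mul, norm_zero]
          exact mul_nonneg ((norm_nonneg _).trans (hB 0)) (mul_nonneg (norm_nonneg _)
            (indicator_nonneg (fun _ _ => by positivity) _))
    have c8 := integral_integral_swap c7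
    have c9 : ∫ l : ℂ, ∫ t, dbar G l * (κ t / (z t - l)) ∂ν = 0 := by
      refine integral_eq_zero_of_ae (h.mono fun l hl => ?_)
      simp only [integral_const_mul, hl, mul_zero, Pi.zero_apply]
    have c10 : ∀ t, ∫ l : ℂ, dbar G l * (κ t / (z t - l)) = Real.pi * (ψ (z t) • κ t) := fun t => by
      have : ∀ l : ℂ, dbar G l * (κ t / (z t - l)) = -κ t * (dbar G l / (l - z t)) := fun l => by
        rw [← neg_sub l, div_neg]
        ring
      simp only [this, integral_const_mul]
      change -κ t * cauchy (dbar G) (z t) = _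
      rw [c6, Complex.real_smul]
      ring
    rw [c9] at c8
    simp only [c10, integral_const_mul] at c8
    exact (mul_eq_zero.1 c8.symm).resolve_left (by exact_mod_cast Real.pi_ne_zero)
  simpa only [he] using hz.ae_map_iff.1 key

theorem exists_point (hz : MeasurableEmbedding z) (hR : ∀ t, ‖z t‖ ≤ R) {g φ : Ω → ℂ}
    (hg : MemLp g 2 ν) (hφ : MemLp φ 2 ν) (hne : ¬ ∀ᵐ t ∂ν, φ t * g t = 0) :
    ∃ l : ℂ, MemLp (fun t => g t / (z t - l)) (ENNReal.ofReal (4 / 3)) ν ∧
      (∀ᵐ t ∂ν, z t ≠ l) ∧ ∫ t, φ t * g t / (z t - l) ∂ν ≠ 0 := by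
  by_contra hn
  push Not at hn
  refine hne (zero_of_cauchy hz hR (hφ.integrable_mul hg) ?_)
  filter_upwards [ae_memLp hz.measurable hR hg, ae_ne (ν := ν) hz.measurable] with l a b
  exact hn l a b

end Pool.Agent.P.MP_65e938_an.Sub
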