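import Mathlib

/-! Nearest points in a space whose norm is the square root of a Hilbert norm of the square. -/

set_option autoImplicit false

open Filter Topology MeasureTheory
open scoped InnerProductSpace ENNReal

namespace Pool.Agent.P.MP_65e938_an.Sub

section abstract

variable {E F : Type*} [NormedAddCommGroup E] [NormedSpace ℂ E] [CompleteSpace E]
  [NormedAddCommGroup F] [InnerProductSpace ℂ F] {B : E →L[ℂ] E →L[ℂ] F}

omit [CompleteSpace E] in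
theorem clarkson (hs : ∀ a b, B a b = B b a) (h1 : ∀ a, ‖B a a‖ = ‖a‖ ^ 2)
    (h2 : ∀ a b, ‖B a b‖ ≤ ‖a‖ * ‖b‖) (a b : E) :
    ‖a + b‖ ^ 4 + ‖a - b‖ ^ 4 ≤ 8 * ‖a‖ ^ 4 + 8 * ‖b‖ ^ 4 := by
  have e1 : B (a + b) (a + b) = (B a a + B b b) + (B a b + B a b) := by
    simp only [map_add, add_apply, hs b a]
    abel
  have e2 : B (a - b) (a - b) = (B a a + B b b) - (B a b + B a b) := by
    simp only [map_sub, sub_apply, hs b a]
    abel
  have e3 := parallelogram_law_with_norm ℂ (B a a + B b b) (B a b + B a b)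
  rw [← e1, ← e2, h1, h1] at e3
  have e4 : ‖B a a + B b b‖ ≤ ‖a‖ ^ 2 + ‖b‖ ^ 2 := (norm_add_le _ _).trans (by rw [h1, h1])
  have e5 : ‖B a b + B a b‖ ≤ 2 * (‖a‖ * ‖b‖) := (norm_add_le _ _).trans (by linarith [h2 a b])
  have e6 := pow_le_pow_left₀ (norm_nonneg _) e4 2
  have e7 := pow_le_pow_left₀ (norm_nonneg _) e5 2
  nlinarith [sq_nonneg (‖a‖ ^ 2 - ‖b‖ ^ 2)]

theorem exists_nearest (hc : ∀ a b : E, ‖a + b‖ ^ 4 + ‖a - b‖ ^ 4 ≤ 8 * ‖a‖ ^ 4 + 8 * ‖b‖ ^ 4)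
    (M : Submodule ℂ E) (hM : IsClosed (M : Set E)) (φ : E) :
    ∃ f ∈ M, ∀ g ∈ M, ‖φ - f‖ ≤ ‖φ - g‖ := by
  set d := Metric.infDist φ M with hd
  have hd0 : 0 ≤ d := Metric.infDist_nonneg
  have hle : ∀ g ∈ M, d ≤ ‖φ - g‖ := fun g hg => by
    rw [← dist_eq_norm]; exact Metric.infDist_le_dist_of_mem hg
  have hex : ∀ n : ℕ, ∃ f ∈ M, ‖φ - f‖ < d + 1 / ((n : ℝ) + 1) := fun n => by
    obtain ⟨f, a1, a2⟩ := (Metric.infDist_lt_iff (x := φ) (s := (M : Set E)) ⟨0, M.zero_mem⟩).1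
      (lt_add_of_pos_right d (Nat.one_div_pos_of_nat (n := n)))
    exact ⟨f, a1, by rwa [← dist_eq_norm]⟩
  choose f hf1 hf2 using hex
  have ht : Tendsto (fun n : ℕ => d + 1 / ((n : ℝ) + 1)) atTop (𝓝 d) := by
    simpa using (tendsto_one_div_add_atTop_nhds_zero_nat (𝕜 := ℝ)).const_add d
  have hcau : CauchySeq f := by
    refine Metric.cauchySeq_iff.2 fun ε hε => ?_
    have h1 : Tendsto (fun n : ℕ => 16 * (d + 1 / ((n : ℝ) + 1)) ^ 4 - 16 * d ^ 4) atTop (𝓝 0) := by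
      have := ((ht.pow 4).const_mul 16).sub_const (16 * d ^ 4)
      rwa [sub_self] at this
    obtain ⟨N, hN⟩ := eventually_atTop.1 (h1.eventually (gt_mem_nhds (pow_pos hε 4)))
    refine ⟨N, fun m hm n hn => ?_⟩
    have hb : ∀ k, N ≤ k → ‖φ - f k‖ ^ 4 ≤ (d + 1 / ((N : ℝ) + 1)) ^ 4 := fun k hk => by
      refine pow_le_pow_left₀ (norm_nonneg _) ((hf2 k).le.trans ?_) 4
      gcongr
    have h2 := hc (φ - f n) (φ - f m)
    have h3 : φ - f n + (φ - f m) = (2 : ℂ) • (φ - (1 / 2 : ℂ) • (f n + f m)) := by module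
    have h4 := pow_le_pow_left₀ hd0 (hle _ (M.smul_mem (1 / 2 : ℂ) (M.add_mem (hf1 n) (hf1 m)))) 4
    rw [h3, norm_smul, sub_sub_sub_cancel_left, mul_pow] at h2
    rw [dist_eq_norm]
    refine lt_of_pow_lt_pow_left₀ 4 hε.le ?_
    norm_num at h2 h4
    have h5 := hN N le_rfl
    linarith [hb m hm, hb n hn]
  obtain ⟨g, hg⟩ := cauchySeq_tendsto_of_complete hcau
  refine ⟨g, hM.mem_of_tendsto hg (Eventually.of_forall hf1), fun g' hg' => le_trans ?_ (hle _ hg')⟩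
  exact le_of_tendsto_of_tendsto' (hg.const_sub φ).norm ht fun n => (hf2 n).le

omit [CompleteSpace E] in
theorem variation (hs : ∀ a b, B a b = B b a) (h1 : ∀ a, ‖B a a‖ = ‖a‖ ^ 2) {r f : E}
    (h : ∀ t : ℂ, ‖r‖ ≤ ‖r + t • f‖) : ⟪B r r, B r f⟫_ℂ = 0 := by
  set a := ⟪B r r, B r f⟫_ℂ with ha
  set c := (starRingEnd ℂ) a with hc
  let γ : ℝ → F := fun t => B r r + t • ((2 * c) • B r f) + (t * t) • ((c * c) • B f f)
  have hγ : ∀ t : ℝ, γ t = B (r + ((t : ℂ) * c) • f) (r + ((t : ℂ) * c) • f) := fun t => by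
    simp only [γ, map_add, map_smul, add_apply, smul_apply, hs f r, ← Complex.coe_smul,
      Complex.ofReal_mul]
    module
  have h0 : γ 0 = B r r := by simp [γ]
  have hd : HasDerivAt γ ((2 * c) • B r f) 0 := by
    have a1 := ((hasDerivAt_id (0 : ℝ)).smul_const ((2 * c) • B r f)).const_add (B r r)
    have a2 := ((hasDerivAt_id (0 : ℝ)).mul (hasDerivAt_id 0)).smul_const ((c * c) • B f f)
    exact (a1.add a2).congr_deriv (by simp)
  have hd2 := Complex.reCLM.hasFDerivAt.comp_hasDerivAt (0 : ℝ) (hd.inner ℂ hd)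
  have hmin : IsLocalMin (Complex.reCLM ∘ fun t => ⟪γ t, γ t⟫_ℂ) 0 := by
    refine Eventually.of_forall fun t => ?_
    have e : ∀ x : F, Complex.reCLM ⟪x, x⟫_ℂ = ‖x‖ ^ 2 := fun x => inner_self_eq_norm_sq (𝕜 := ℂ) x
    simp only [Function.comp, e]
    rw [h0, hγ, h1, h1]
    gcongr
    exact h _
  have h3 := hmin.hasDerivAt_eq_zero hd2
  rw [h0, inner_smul_right, ← inner_conj_symm ((2 * c) • B r f), inner_smul_right, ← ha,
    mul_assoc, hc, Complex.conj_mul'] at h3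
  have h4 : ‖a‖ ^ 2 = 0 := by
    simp only [Complex.reCLM_apply, Complex.add_re, Complex.conj_re, ← Complex.ofReal_pow,
      Complex.mul_re, Complex.re_ofNat, Complex.ofReal_re, Complex.im_ofNat, Complex.ofReal_im]
      at h3
    linarith
  simpa using h4

theorem extremal (hs : ∀ a b, B a b = B b a) (h1 : ∀ a, ‖B a a‖ = ‖a‖ ^ 2)
    (h2 : ∀ a b, ‖B a b‖ ≤ ‖a‖ * ‖b‖) (M : Submodule ℂ E) (hM : IsClosed (M : Set E)) {φ : E}
    (hφ : φ ∉ M) : ∃ r, φ - r ∈ M ∧ ⟪B r r, B r φ⟫_ℂ ≠ 0 ∧ ∀ f ∈ M, ⟪B r r, B r f⟫_ℂ = 0 := by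
  obtain ⟨f, a1, a2⟩ := exists_nearest (clarkson hs h1 h2) M hM φ
  have key : ∀ g ∈ M, ⟪B (φ - f) (φ - f), B (φ - f) g⟫_ℂ = 0 := fun g hg =>
    variation hs h1 fun t => by
      have := a2 _ (M.sub_mem a1 (M.smul_mem t hg))
      rwa [← sub_add] at this
  refine ⟨φ - f, by simpa using a1, fun h => hφ ?_, key⟩
  have h3 : ⟪B (φ - f) (φ - f), B (φ - f) (φ - f)⟫_ℂ = 0 := by
    conv_lhs => rw [map_sub (B (φ - f)), inner_sub_right (B (φ - f) φ - B (φ - f) f),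
      ← map_sub, h, key f a1, sub_zero]
  have h4 := h1 (φ - f)
  rw [inner_self_eq_zero.1 h3, norm_zero, eq_comm, sq_eq_zero_iff, norm_eq_zero,
    sub_eq_zero] at h4
  rwa [h4]

end abstract

variable {Ω : Type*} [MeasurableSpace Ω] {ν : Measure Ω}

instance fact_four : Fact ((1 : ℝ≥0∞) ≤ 4) := ⟨by norm_num⟩

instance triple_four : ENNReal.HolderTriple 4 4 2 := ⟨by
  rw [← two_mul, show (4 : ℝ≥0∞) = 2 * 2 by norm_num, ENNReal.mul_inv (by simp) (by simp),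
    ← mul_assoc, ENNReal.mul_inv_cancel (by simp) (by simp), one_mul]⟩

/-- The product of two functions in `L⁴`. -/
noncomputable def B2 (ν : Measure Ω) : Lp ℂ 4 ν →L[ℂ] Lp ℂ 4 ν →L[ℂ] Lp ℂ 2 ν :=
  (ContinuousLinearMap.mul ℂ ℂ).holderL ν 4 4 2

theorem coe_B2 (f g : Lp ℂ 4 ν) : B2 ν f g =ᵐ[ν] fun t => f t * g t :=
  (ContinuousLinearMap.mul ℂ ℂ).coeFn_holder f g

theorem B2_comm (f g : Lp ℂ 4 ν) : B2 ν f g = B2 ν g f := by
  ext1
  filter_upwards [coe_B2 f g, coe_B2 g f] with t a b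
  rw [a, b, mul_comm]

theorem norm_B2_le (f g : Lp ℂ 4 ν) : ‖B2 ν f g‖ ≤ ‖f‖ * ‖g‖ := by
  refine ((ContinuousLinearMap.mul ℂ ℂ).norm_holder_apply_apply_le (r := 2) f g).trans ?_
  rw [ContinuousLinearMap.opNorm_mul, one_mul]

theorem norm_B2_self (f : Lp ℂ 4 ν) : ‖B2 ν f f‖ = ‖f‖ ^ 2 := by
  have h1 : eLpNorm (B2 ν f f) 2 ν = eLpNorm (fun t => ‖f t‖ ^ (2 : ℝ)) 2 ν := by
    refine eLpNorm_congr_norm_ae ((coe_B2 f f).mono fun t a => ?_)
    rw [a, norm_mul, Real.norm_of_nonneg (by positivity), Real.rpow_two, sq]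
  rw [Lp.norm_def, Lp.norm_def, h1, eLpNorm_norm_rpow _ two_pos, ← ENNReal.toReal_pow]
  norm_num

end Pool.Agent.P.MP_65e938_an.Sub
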