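import Mathlib

/-! The cyclic representation of a star homomorphism on a space of square integrable functions. -/

set_option autoImplicit false

open Filter Topology MeasureTheory
open scoped InnerProductSpace ENNReal CompactlySupported

namespace Pool.Agent.P.MP_65e938_an.Sub

variable {K : Type*} [NormedAddCommGroup K] [InnerProductSpace ℂ K] [CompleteSpace K]
  {Ω : Type*} [MetricSpace Ω] [CompactSpace Ω] [MeasurableSpace Ω] [BorelSpace Ω]

/-- A real function as a complex function. -/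
noncomputable def toC : C(Ω, ℝ) →L[ℝ] C(Ω, ℂ) := Complex.ofRealCLM.compLeftContinuous ℝ Ω

omit [CompactSpace Ω] [MeasurableSpace Ω] [BorelSpace Ω] in
theorem norm_sq_eq (Φ : C(Ω, ℂ) →⋆ₐ[ℂ] (K →L[ℂ] K)) (v : K) (f : C(Ω, ℂ)) :
    (⟪v, Φ (star f * f) v⟫_ℂ).re = ‖Φ f v‖ ^ 2 := by
  rw [map_mul, map_star, ContinuousLinearMap.star_eq_adjoint, mul_apply_eq_comp,
    ContinuousLinearMap.adjoint_inner_right]
  exact inner_self_eq_norm_sq (𝕜 := ℂ) _

theorem exists_measure (Φ : C(Ω, ℂ) →⋆ₐ[ℂ] (K →L[ℂ] K)) (v : K) :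
    ∃ ν : Measure Ω, IsFiniteMeasure ν ∧ ∀ f : C(Ω, ℂ), ‖Φ f v‖ ^ 2 = ∫ t, ‖f t‖ ^ 2 ∂ν := by
  let φ : C(Ω, ℝ) →ₗ[ℝ] ℝ :=
    { toFun u := (⟪v, Φ (toC u) v⟫_ℂ).re
      map_add' a b := by simp only [map_add, add_apply, inner_add_right, Complex.add_re]
      map_smul' c a := by
        rw [map_smul, ← Complex.coe_smul, map_smul, smul_apply, inner_smul_right,
          Complex.re_ofReal_mul]
        rfl }
  have hφ : ∀ u : C(Ω, ℝ), 0 ≤ u → 0 ≤ φ u := fun u hu => by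
    let g : C(Ω, ℝ) := ⟨fun t => √(u t), by fun_prop⟩
    have h : toC u = star (toC g) * toC g := by
      ext t
      change (u t : ℂ) = star (√(u t) : ℂ) * (√(u t) : ℂ)
      rw [Complex.star_def, Complex.conj_ofReal, ← Complex.ofReal_mul,
        Real.mul_self_sqrt (show 0 ≤ u t from hu t)]
    change 0 ≤ (⟪v, Φ (toC u) v⟫_ℂ).re
    rw [h, norm_sq_eq]
    positivity
  let Λ : C_c(Ω, ℝ) →ₚ[ℝ] ℝ :=
    { toFun g := φ g.toContinuousMap
      map_add' g g' := by rw [← map_add]; rfl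
      map_smul' c g := by rw [RingHom.id_apply, ← map_smul]; rfl
      monotone' g g' hgg' := by
        have h : 0 ≤ g'.toContinuousMap - g.toContinuousMap := fun x => sub_nonneg.2 (hgg' x)
        have := hφ _ h
        rw [map_sub] at this
        exact sub_nonneg.1 this }
  refine ⟨RealRMK.rieszMeasure Λ, inferInstance, fun f => ?_⟩
  let u : C(Ω, ℝ) := ⟨fun t => ‖f t‖ ^ 2, by fun_prop⟩
  have h : toC u = star f * f := by
    ext t
    change ((‖f t‖ ^ 2 : ℝ) : ℂ) = star (f t) * f t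
    rw [Complex.star_def, Complex.conj_mul', Complex.ofReal_pow]
  have h2 := RealRMK.integral_rieszMeasure Λ ⟨u, HasCompactSupport.of_compactSpace _⟩
  rw [← norm_sq_eq, ← h]
  exact h2.symm

theorem exists_model (Φ : C(Ω, ℂ) →⋆ₐ[ℂ] (K →L[ℂ] K)) (v : K) :
    ∃ (ν : Measure Ω) (_ : IsFiniteMeasure ν) (U : Lp ℂ 2 ν →L[ℂ] K) (o : Lp ℂ 2 ν),
      (∀ f, ‖U f‖ = ‖f‖) ∧ (o =ᵐ[ν] fun _ => 1) ∧ U o = v ∧ ∀ a : C(Ω, ℂ),
        ∃ Z : Lp ℂ 2 ν →L[ℂ] Lp ℂ 2 ν, (∀ f, Z f =ᵐ[ν] fun t => a t * f t) ∧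
          ∀ f, U (Z f) = Φ a (U f) := by
  obtain ⟨ν, _, hν⟩ := exists_measure Φ v
  let e : C(Ω, ℂ) →L[ℂ] Lp ℂ 2 ν := ContinuousMap.toLp 2 ν ℂ
  have hd : DenseRange e := ContinuousMap.toLp_denseRange ℂ ν ℂ (by simp)
  have he : ∀ f, e f =ᵐ[ν] f := fun f => ContinuousMap.coeFn_toLp ν f
  let Ψ : C(Ω, ℂ) →ₗ[ℂ] K :=
    { toFun f := Φ f v
      map_add' a b := by rw [map_add, add_apply]
      map_smul' c a := by rw [map_smul, smul_apply, RingHom.id_apply] }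
  have hn : ∀ f, ‖Ψ f‖ = ‖e f‖ := fun f => by
    refine (pow_left_inj₀ (norm_nonneg _) (norm_nonneg _) two_ne_zero).1 ((hν f).trans ?_)
    rw [← inner_self_eq_norm_sq (𝕜 := ℂ), ContinuousMap.inner_toLp]
    simp only [Complex.mul_conj', ← Complex.ofReal_pow, integral_complex_ofReal]
    rfl
  let U : Lp ℂ 2 ν →L[ℂ] K := Ψ.extendOfNorm e.toLinearMap
  have hU : ∀ f, U (e f) = Φ f v := fun f =>
    LinearMap.extendOfNorm_eq (f := Ψ) (e := e.toLinearMap) hd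
      ⟨1, fun x => by rw [one_mul]; exact (hn x).le⟩ f
  refine ⟨ν, inferInstance, U, e 1, fun f => ?_, he 1, by rw [hU, map_one]; rfl, fun a => ?_⟩
  · refine hd.induction_on f (isClosed_eq (by fun_prop) (by fun_prop)) fun g => ?_
    rw [hU]
    exact hn g
  · let Z : Lp ℂ 2 ν →L[ℂ] Lp ℂ 2 ν :=
      (ContinuousLinearMap.mul ℂ ℂ).holderL ν ⊤ 2 2 (ContinuousMap.toLp ⊤ ν ℂ a)
    have hZ : ∀ f, Z f =ᵐ[ν] fun t => a t * f t := fun f => by
      filter_upwards [(ContinuousLinearMap.mul ℂ ℂ).coeFn_holder (r := 2)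
        (ContinuousMap.toLp ⊤ ν ℂ a) f, ContinuousMap.coeFn_toLp (p := ⊤) (𝕜 := ℂ) ν a]
        with t b c
      exact b.trans (by rw [c]; rfl)
    refine ⟨Z, hZ, fun f => ?_⟩
    refine hd.induction_on f (isClosed_eq (by fun_prop) (by fun_prop)) fun g => ?_
    have h1 : Z (e g) = e (a * g) := by
      ext1
      filter_upwards [hZ (e g), he g, he (a * g)] with t b c d
      rw [b, c, d]
      rfl
    rw [h1, hU, hU, map_mul]
    rfl

end Pool.Agent.P.MP_65e938_an.Sub
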