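import Mathlib
import Pool.Agent.P.MP_65e938_an.Main

/-! Reductive operators: the normal part, and hyperinvariance away from it. -/

set_option autoImplicit false

open ContinuousLinearMap
open scoped InnerProductSpace ComplexStarModule

namespace Pool.Agent.P.MP_65e938_an.Sub

variable {H K : Type*} [NormedAddCommGroup H] [InnerProductSpace ℂ H] [CompleteSpace H]
  [NormedAddCommGroup K] [InnerProductSpace ℂ K] [CompleteSpace K]

/-- Every closed invariant subspace is invariant under the adjoint. -/
def Red (A : H →L[ℂ] H) : Prop :=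
  ∀ M : Submodule ℂ H, IsClosed (M : Set H) → (∀ x ∈ M, A x ∈ M) → ∀ x ∈ M, adjoint A x ∈ M

/-- The self-commutator. -/
noncomputable def Df (A : H →L[ℂ] H) : H →L[ℂ] H := star A * A - A * star A

/-- The normal part. -/
noncomputable def H1 (A : H →L[ℂ] H) : Submodule ℂ H := ⨅ n : ℕ, (Df A * A ^ n).ker

variable {A : H →L[ℂ] H}

theorem mem_H1 {x : H} : x ∈ H1 A ↔ ∀ n : ℕ, (Df A * A ^ n) x = 0 := by
  simp only [H1, Submodule.mem_iInf, LinearMap.mem_ker, coe_coe]

theorem isClosed_H1 : IsClosed (H1 A : Set H) := by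
  rw [H1, Submodule.coe_iInf]
  exact isClosed_iInter fun n => (Df A * A ^ n).isClosed_ker

theorem inv_H1 : ∀ x ∈ H1 A, A x ∈ H1 A := fun x hx => mem_H1.2 fun n => by
  have := mem_H1.1 hx (n + 1)
  rwa [pow_succ, ← mul_assoc] at this

theorem star_Df : star (Df A) = Df A := by simp [Df]

theorem graph (hred : Red A) {P T : H →L[ℂ] H} (hP : P * P = P) (h1 : Commute P A)
    (h2 : Commute P (star A)) (hT : Commute T A) : Commute ((1 - P) * T * P) (star A) := by
  set C := (1 - P) * T * P with hC
  have hCA : Commute C A := (((Commute.one_left A).sub_left h1).mul_left hT).mul_left h1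
  have hCP : C * P = C := by rw [hC, mul_assoc, hP]
  have hPC : P * C = 0 := by
    rw [hC, ← mul_assoc, ← mul_assoc, mul_sub, mul_one, hP, sub_self, zero_mul, zero_mul]
  have hCC : C * C = 0 := by rw [← hCP, mul_assoc, hCP, hPC, mul_zero]
  have hG : Commute (1 - P - C) A := ((Commute.one_left A).sub_left h1).sub_left hCA
  have hz : (1 - P - C) * (P + C) = 0 := by
    simp only [sub_mul, mul_add, one_mul, hP, hPC, hCP, hCC]
    abel
  have key : (1 - P - C) * star A * (P + C) = 0 := by
    ext x
    refine hred (1 - P - C).ker (1 - P - C).isClosed_ker (fun y hy => ?_) ((P + C) x)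
      (congrArg (fun T : H →L[ℂ] H => T x) hz)
    have hy' : (1 - P - C) y = 0 := hy
    have : (1 - P - C) (A y) = A ((1 - P - C) y) := congrArg (fun T : H →L[ℂ] H => T y) hG.eq
    change (1 - P - C) (A y) = 0
    rw [this, hy', map_zero]
  have e1 : P * star A * P = star A * P := by rw [h2.eq, mul_assoc, hP]
  have e2 : P * star A * C = 0 := by rw [h2.eq, mul_assoc, hPC, mul_zero]
  have e3 : C * star A * P = C * star A := by rw [mul_assoc, ← h2.eq, ← mul_assoc, hCP]
  have e4 : C * star A * C = 0 := by rw [← hCP, mul_assoc C P, mul_assoc C, hCP, e2, mul_zero]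
  simp only [sub_mul, mul_add, one_mul, e1, e2, e3, e4] at key
  change C * star A = star A * C
  rw [← sub_eq_zero, ← neg_eq_zero, ← key]
  abel

theorem star_mem_H1 (hred : Red A) {P T : H →L[ℂ] H} (hP : P * P = P) (h1 : Commute P A)
    (h2 : Commute P (star A)) (hT : Commute T A) (x : H) : star ((1 - P) * T * P) x ∈ H1 A := by
  have a1 := graph hred hP h1 h2 hT
  have a2 := graph hred hP h1 h2 (hT.mul_left (Commute.refl A))
  set C := (1 - P) * T * P with hC
  have a3 : (1 - P) * (T * A) * P = C * A := by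
    rw [hC, mul_assoc _ P A, h1.eq]
    simp only [mul_assoc]
  rw [a3] at a2
  have a4 : C * Df A = 0 := by
    rw [Df, mul_sub, ← mul_assoc, ← mul_assoc, a2.eq, a1.eq, mul_assoc, sub_self]
  refine mem_H1.2 fun n => ?_
  have a5 : C * star A ^ n * Df A = 0 := by rw [(a1.pow_right n).eq, mul_assoc, a4, mul_zero]
  have a6 := congrArg star a5
  rw [star_mul, star_mul, star_Df, star_pow, star_star, star_zero, ← mul_assoc] at a6
  exact congrArg (fun T : H →L[ℂ] H => T x) a6

theorem proj_comm (hred : Red A) {L : Submodule ℂ H} [L.HasOrthogonalProjection]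
    (hc : IsClosed (L : Set H)) (hi : ∀ x ∈ L, A x ∈ L) :
    Commute L.starProjection A ∧ Commute L.starProjection (star A) := by
  have h1 : Commute L.starProjection A := proj_commute L hi (hred L hc hi)
  refine ⟨h1, ?_⟩
  have h2 := h1.star_star
  rwa [(isSelfAdjoint_starProjection L).star_eq] at h2

/-- Invariant subspaces that miss the normal part are hyperinvariant. -/
theorem hyper (hred : Red A) {L : Submodule ℂ H} (hc : IsClosed (L : Set H))
    (hi : ∀ x ∈ L, A x ∈ L) (h0 : ∀ x ∈ L, x ∈ H1 A → x = 0) {T : H →L[ℂ] H}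
    (hT : Commute T A) : ∀ x ∈ L, T x ∈ L := by
  have : CompleteSpace L := hc.completeSpace_coe
  obtain ⟨h1, h2⟩ := proj_comm hred hc hi
  have hP : L.starProjection * L.starProjection = L.starProjection :=
    L.isIdempotentElem_starProjection
  have h3 : star ((1 - L.starProjection) * T * L.starProjection) = 0 := by
    ext y
    refine h0 _ ?_ (star_mem_H1 hred hP h1 h2 hT y)
    rw [star_mul, (isSelfAdjoint_starProjection L).star_eq]
    exact L.starProjection_apply_mem _
  rw [star_eq_zero] at h3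
  intro x hx
  have h4 := congrArg (fun T : H →L[ℂ] H => T x) h3
  simp only [mul_apply_eq_comp, sub_apply, one_apply_eq_self, zero_apply,
    Submodule.starProjection_eq_self_iff.2 hx] at h4
  rw [sub_eq_zero.1 h4]
  exact L.starProjection_apply_mem _

theorem eigen (hred : Red A) {e : H} {l : ℂ} (h : A e = l • e) : e ∈ H1 A := by
  have h1 := hred (ℂ ∙ e) (Submodule.closed_of_finiteDimensional _) (fun x hx => by
    obtain ⟨a, rfl⟩ := Submodule.mem_span_singleton.1 hx
    rw [map_smul, h]
    exact Submodule.smul_mem _ _ (Submodule.smul_mem _ _ (Submodule.mem_span_singleton_self e)))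
    e (Submodule.mem_span_singleton_self e)
  obtain ⟨m, hm⟩ := Submodule.mem_span_singleton.1 h1
  have h2 : Df A e = 0 := by
    change adjoint A (A e) - A (adjoint A e) = 0
    rw [h, map_smul, ← hm, map_smul, h, smul_comm, sub_self]
  have h3 : ∀ n : ℕ, (A ^ n) e = l ^ n • e := fun n => by
    induction n with
    | zero => simp
    | succ n ih => rw [pow_succ', mul_apply_eq_comp, ih, map_smul, h, smul_smul, pow_succ]
  exact mem_H1.2 fun n => by rw [mul_apply_eq_comp, h3, map_smul, h2, smul_zero]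

section span

variable {E F : Type*} [NormedAddCommGroup E] [NormedSpace ℂ E] [NormedAddCommGroup F]
  [NormedSpace ℂ F] {s : Set E}

theorem closure_le {L : Submodule ℂ E} (hc : IsClosed (L : Set E)) (h : s ⊆ L) :
    (Submodule.span ℂ s).topologicalClosure ≤ L :=
  Submodule.topologicalClosure_minimal _ (Submodule.span_le.2 h) hc

theorem closure_map {L : Submodule ℂ F} (hc : IsClosed (L : Set F))
    (T : E →L[ℂ] F) (h : ∀ x ∈ s, T x ∈ L) :
    ∀ x ∈ (Submodule.span ℂ s).topologicalClosure, T x ∈ L :=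
  fun _ hx => closure_le (L := L.comap T.toLinearMap) (hc.preimage T.continuous) h hx

theorem closure_zero (T : E →L[ℂ] F) (h : ∀ x ∈ s, T x = 0) :
    ∀ x ∈ (Submodule.span ℂ s).topologicalClosure, T x = 0 :=
  fun _ hx => closure_le (L := T.ker) T.isClosed_ker h hx

theorem mem_closure_span {x : E} (h : x ∈ s) : x ∈ (Submodule.span ℂ s).topologicalClosure :=
  Submodule.le_topologicalClosure _ (Submodule.subset_span h)

end span

/-- No bounded point evaluations away from the normal part. -/
theorem no_bpe (hred : Red A) {L : Submodule ℂ H} (hc : IsClosed (L : Set H))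
    (hi : ∀ x ∈ L, A x ∈ L) (h0 : ∀ x ∈ L, x ∈ H1 A → x = 0) {a : H} (ha : a ∈ L) (l : ℂ)
    (f : H →L[ℂ] ℂ) (hf : ∀ n : ℕ, f ((A ^ (n + 1)) a) = l * f ((A ^ n) a)) : f a = 0 := by
  set s : Set H := Set.range fun n : ℕ => (A ^ (n + 1)) a - l • (A ^ n) a with hs
  set L₁ := (Submodule.span ℂ s).topologicalClosure with hL₁
  have hc1 : IsClosed (L₁ : Set H) := Submodule.isClosed_topologicalClosure _
  have : CompleteSpace L₁ := hc1.completeSpace_coe
  have hp : ∀ n : ℕ, (A ^ n) a ∈ L := fun n => by
    induction n with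
    | zero => simpa using ha
    | succ n ih => rw [pow_succ', mul_apply_eq_comp]; exact hi _ ih
  have hle : L₁ ≤ L := closure_le hc (by
    rintro _ ⟨n, rfl⟩
    exact L.sub_mem (hp _) (L.smul_mem _ (hp _)))
  have hi1 : ∀ x ∈ L₁, A x ∈ L₁ := closure_map hc1 A (by
    rintro _ ⟨n, rfl⟩
    refine mem_closure_span ⟨n + 1, ?_⟩
    simp only [map_sub, map_smul, pow_succ' A, mul_apply_eq_comp])
  have hk : ∀ x ∈ L₁, f x ∈ (⊥ : Submodule ℂ ℂ) := closure_map (by simp) f (by
    rintro _ ⟨n, rfl⟩
    simp only [map_sub, map_smul, hf, smul_eq_mul, sub_self, Submodule.mem_bot])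
  have h1 := (proj_comm hred hc1 hi1).1
  have h2 : A a - l • a ∈ L₁ := mem_closure_span ⟨0, by simp⟩
  have h3 : A (a - L₁.starProjection a) = l • (a - L₁.starProjection a) := by
    have b1 := Submodule.starProjection_eq_self_iff.2 h2
    have b2 : L₁.starProjection (A a) = A (L₁.starProjection a) :=
      congrArg (fun T : H →L[ℂ] H => T a) h1.eq
    rw [map_sub, map_smul, b2] at b1
    rw [map_sub, smul_sub, sub_eq_sub_iff_sub_eq_sub, b1]
  have h4 := h0 _ (L.sub_mem ha (hle (L₁.starProjection_apply_mem a))) (eigen hred h3)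
  rw [sub_eq_zero] at h4
  exact (Submodule.mem_bot ℂ).1 (hk a (h4 ▸ L₁.starProjection_apply_mem a))

theorem dense_back (hred : Red A) {L L' : Submodule ℂ H} (hc : IsClosed (L : Set H))
    (hi : ∀ x ∈ L, A x ∈ L) (h0 : ∀ x ∈ L, x ∈ H1 A → x = 0) (hc' : IsClosed (L' : Set H))
    (hi' : ∀ x ∈ L', A x ∈ L') (hle : L' ≤ L) {V : H →L[ℂ] H} (hV : Commute V A)
    (hinj : Function.Injective V) (hVL : ∀ x ∈ L, V x ∈ L') : L ≤ L' := by
  have : CompleteSpace L' := hc'.completeSpace_coe
  intro x hx
  have h1 : ∀ y ∈ L ⊓ L'ᗮ, A y ∈ L ⊓ L'ᗮ := fun y hy => ⟨hi y hy.1, by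
    refine (Submodule.mem_orthogonal _ _).2 fun u hu => ?_
    rw [← adjoint_inner_left]
    exact Submodule.inner_right_of_mem_orthogonal (hred L' hc' hi' u hu) hy.2⟩
  have h2 : x - L'.starProjection x ∈ L ⊓ L'ᗮ :=
    ⟨L.sub_mem hx (hle (L'.starProjection_apply_mem x)), L'.sub_starProjection_mem_orthogonal x⟩
  have h3 := hyper hred (hc.inter L'.isClosed_orthogonal) h1 (fun y hy => h0 y hy.1) hV _ h2
  have h4 : V (x - L'.starProjection x) = 0 :=
    inner_self_eq_zero.1 (Submodule.inner_right_of_mem_orthogonal (hVL _ h2.1) h3.2)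
  have h5 := hinj (h4.trans (map_zero V).symm)
  rw [sub_eq_zero.1 h5]
  exact L'.starProjection_apply_mem x

/-- Two intertwiners with a normal operator kill the self-commutator. -/
theorem normal_case (hred : Red A) {N : K →L[ℂ] K} (hN : IsStarNormal N) (X : H →L[ℂ] K)
    (Y : K →L[ℂ] H) (hX : ∀ x, X (A x) = N (X x)) (hY : ∀ k, A (Y k) = Y (N k)) (k : K) :
    X (Df A (Y k)) = 0 := by
  set B : K →L[ℂ] K := X ∘L adjoint A ∘L Y with hB
  have hW : Commute N (X ∘L Y) := by
    ext k
    simp only [mul_apply_eq_comp, comp_apply, ← hX, hY]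
  have hloc : ∀ S : K →L[ℂ] K, IsSelfAdjoint S → (∀ W : K →L[ℂ] K, Commute N W → Commute S W) →
      Commute S B := by
    intro S hS hSW
    apply commute_of_local hS
    intro f g hf hg hfg
    have b1 : Commute (cfc g S) N := (hSW N (Commute.refl N)).cfc_real g
    have b2 : Commute (cfc f S) (X ∘L Y) := (hSW _ hW).cfc_real f
    have b3 : cfc f S * cfc g S = 0 := by
      rw [← cfc_mul _ _ _ hf.continuousOn hg.continuousOn]
      simp [hfg]
    set M := (Submodule.span ℂ (Set.range fun k => Y (cfc g S k))).topologicalClosure with hM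
    have hc : IsClosed (M : Set H) := Submodule.isClosed_topologicalClosure _
    have hi : ∀ x ∈ M, A x ∈ M := closure_map hc A (by
      rintro _ ⟨k, rfl⟩
      refine mem_closure_span ⟨N k, ?_⟩
      have : cfc g S (N k) = N (cfc g S k) := congrArg (fun T : K →L[ℂ] K => T k) b1.eq
      simp only [this, hY])
    have hk : ∀ x ∈ M, (cfc f S ∘L X) x ∈ (⊥ : Submodule ℂ K) := closure_map (by simp) _ (by
      rintro _ ⟨k, rfl⟩
      have : cfc f S * (X ∘L Y) * cfc g S = 0 := by rw [b2.eq, mul_assoc, b3, mul_zero]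
      exact congrArg (fun T : K →L[ℂ] K => T k) this)
    ext k
    exact hk _ (hred M hc hi _ (mem_closure_span ⟨k, rfl⟩))
  have hre : Commute (ℜ N : K →L[ℂ] K) B := by
    apply hloc _ (ℜ N).2
    intro W hW
    rw [realPart_apply_coe]
    exact (hW.add_left (hN.commute_star_left hW)).smul_left _
  have him : Commute (ℑ N : K →L[ℂ] K) B := by
    apply hloc _ (ℑ N).2
    intro W hW
    rw [imaginaryPart_apply_coe]
    exact ((hW.sub_left (hN.commute_star_left hW)).smul_left _).smul_left _
  have hT : Commute N B := by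
    rw [← realPart_add_I_smul_imaginaryPart N]
    exact hre.add_left (him.smul_left _)
  have h1 : N (X (adjoint A (Y k))) = X (adjoint A (Y (N k))) :=
    congrArg (fun T : K →L[ℂ] K => T k) hT.eq
  change X (adjoint A (A (Y k)) - A (adjoint A (Y k))) = 0
  rw [map_sub, hX, hY, h1, sub_self]

end Pool.Agent.P.MP_65e938_an.Sub
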