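import Mathlib
import Pool.Agent.P.MP_65e938_an.Sub.Op
import Pool.Agent.P.MP_65e938_an.Sub.Cau
import Pool.Agent.P.MP_65e938_an.Sub.Ext

/-! A point evaluation that survives an operator with dense range in the commutant. -/

set_option autoImplicit false

open Filter Topology MeasureTheory
open scoped InnerProductSpace ENNReal

namespace Pool.Agent.P.MP_65e938_an.Sub

variable {Ω : Type*} [MeasurableSpace Ω] {ν : Measure Ω} {z : Ω → ℂ} {R : ℝ}
  {Z T : Lp ℂ 2 ν →L[ℂ] Lp ℂ 2 ν} {o : Lp ℂ 2 ν}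

/-- The cyclic subspace. -/
noncomputable def cyc {H : Type*} [NormedAddCommGroup H] [InnerProductSpace ℂ H]
    (A : H →L[ℂ] H) (u : H) : Submodule ℂ H :=
  (Submodule.span ℂ (Set.range fun n : ℕ => (A ^ n) u)).topologicalClosure

section cyc

variable {H : Type*} [NormedAddCommGroup H] [InnerProductSpace ℂ H] (A : H →L[ℂ] H) (u : H)

theorem isClosed_cyc : IsClosed (cyc A u : Set H) := Submodule.isClosed_topologicalClosure _

theorem pow_mem_cyc (n : ℕ) : (A ^ n) u ∈ cyc A u := mem_closure_span ⟨n, rfl⟩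

theorem self_mem_cyc : u ∈ cyc A u := by simpa using pow_mem_cyc A u 0

theorem pow_succ_apply (n : ℕ) (x : H) : (A ^ (n + 1)) x = A ((A ^ n) x) := by
  rw [pow_succ']; rfl

theorem inv_cyc : ∀ x ∈ cyc A u, A x ∈ cyc A u := closure_map (isClosed_cyc A u) A (by
  rintro _ ⟨n, rfl⟩
  exact (pow_succ_apply A n u) ▸ pow_mem_cyc A u (n + 1))

theorem pow_inv {L : Submodule ℂ H} (h : ∀ x ∈ L, A x ∈ L) {x : H} (hx : x ∈ L) (n : ℕ) :
    (A ^ n) x ∈ L := by
  induction n with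
  | zero => simpa using hx
  | succ n ih => rw [pow_succ_apply]; exact h _ ih

end cyc

theorem coe_pow (hZ : ∀ f, Z f =ᵐ[ν] fun t => z t * f t) (f : Lp ℂ 2 ν) (n : ℕ) :
    (Z ^ n) f =ᵐ[ν] fun t => z t ^ n * f t := by
  induction n with
  | zero => exact Eventually.of_forall fun t => by simp
  | succ n ih =>
    rw [pow_succ_apply]
    filter_upwards [hZ ((Z ^ n) f), ih] with t a b
    rw [a, b]; ring

theorem comm_pow (h2 : ∀ f ∈ cyc Z o, T (Z f) = Z (T f)) {f : Lp ℂ 2 ν} (hf : f ∈ cyc Z o)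
    (n : ℕ) : T ((Z ^ n) f) = (Z ^ n) (T f) := by
  induction n with
  | zero => simp
  | succ n ih => rw [pow_succ_apply, pow_succ_apply, h2 _ (pow_inv Z (inv_cyc Z o) hf n), ih]

theorem coe_T (hZ : ∀ f, Z f =ᵐ[ν] fun t => z t * f t) (ho : o =ᵐ[ν] fun _ => 1)
    (h2 : ∀ f ∈ cyc Z o, T (Z f) = Z (T f)) {f : Lp ℂ 2 ν} (hf : f ∈ cyc Z o) :
    T f =ᵐ[ν] fun t => T o t * f t := by
  let B : Lp ℂ 2 ν →L[ℂ] Lp ℂ 2 ν →L[ℂ] Lp ℂ 1 ν := (ContinuousLinearMap.mul ℂ ℂ).holderL ν 2 2 1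
  have hB : ∀ a b, B a b =ᵐ[ν] fun t => a t * b t := fun a b =>
    (ContinuousLinearMap.mul ℂ ℂ).coeFn_holder a b
  have h := closure_zero (s := Set.range fun n : ℕ => (Z ^ n) o) (B o ∘L T - B (T o)) (by
    rintro _ ⟨n, rfl⟩
    rw [sub_apply, sub_eq_zero, ContinuousLinearMap.comp_apply,
      comm_pow h2 (self_mem_cyc Z o)]
    ext1
    filter_upwards [hB o ((Z ^ n) (T o)), hB (T o) ((Z ^ n) o), coe_pow hZ (T o) n,
      coe_pow hZ o n, ho] with t a b c d e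
    rw [a, b, c, d, e]; ring) f hf
  rw [sub_apply, sub_eq_zero, ContinuousLinearMap.comp_apply] at h
  filter_upwards [hB o (T f), hB (T o) f, ho] with t a b e
  rw [← b, ← h, a, e, one_mul]

variable [IsFiniteMeasure ν]

theorem ae_ne_zero (hZ : ∀ f, Z f =ᵐ[ν] fun t => z t * f t) (ho : o =ᵐ[ν] fun _ => 1)
    (h2 : ∀ f ∈ cyc Z o, T (Z f) = Z (T f)) (h3 : o ∈ closure (T '' cyc Z o)) :
    ∀ᵐ t ∂ν, T o t ≠ 0 := by
  have hs : MeasurableSet {t | T o t = 0} :=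
    (Lp.stronglyMeasurable (T o)).measurable (measurableSet_singleton 0)
  have h4 : o ∈ {f : Lp ℂ 2 ν |
      ⟪indicatorConstLp 2 hs (measure_ne_top ν _) (1 : ℂ), f⟫_ℂ = 0} := by
    refine closure_minimal ?_ (isClosed_eq (by fun_prop) continuous_const) h3
    rintro _ ⟨f, hf, rfl⟩
    rw [Set.mem_ofPred_eq, L2.inner_indicatorConstLp_one]
    refine setIntegral_eq_zero_of_ae_eq_zero ((coe_T hZ ho h2 hf).mono fun t a b => ?_)
    have b' : T o t = 0 := b
    simp only [a, b', zero_mul]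
  rw [Set.mem_ofPred_eq, L2.inner_indicatorConstLp_one,
    integral_congr_ae (ae_restrict_of_ae ho)] at h4
  rw [ae_iff]
  simpa [measureReal_eq_zero_iff] using h4

instance fact_conj : Fact ((1 : ℝ≥0∞) ≤ ENNReal.ofReal (4 / 3)) :=
  ⟨ENNReal.one_le_ofReal.2 (by norm_num)⟩

instance triple_conj : ENNReal.HolderConjugate 4 (ENNReal.ofReal (4 / 3)) := by
  have h : Real.HolderConjugate 4 (4 / 3) := Real.holderConjugate_iff.2 (by norm_num)
  simpa using h.ennrealOfReal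

theorem thomson (hz : MeasurableEmbedding z) (hR : ∀ t, ‖z t‖ ≤ R)
    (hZ : ∀ f, Z f =ᵐ[ν] fun t => z t * f t) (ho : o =ᵐ[ν] fun _ => 1)
    (h1 : ∀ f ∈ cyc Z o, T f ∈ cyc Z o) (h2 : ∀ f ∈ cyc Z o, T (Z f) = Z (T f))
    (h3 : o ∈ closure (T '' cyc Z o)) (hne : cyc Z o ≠ ⊤) :
    ∃ (l : ℂ) (y : Lp ℂ 2 ν), ∃ r ∈ cyc Z o, ⟪y, T r⟫_ℂ ≠ 0 ∧
      ∀ n : ℕ, ⟪y, (Z ^ (n + 1)) (T r)⟫_ℂ = l * ⟪y, (Z ^ n) (T r)⟫_ℂ := by
  have hc := isClosed_cyc Z o
  have : CompleteSpace (cyc Z o) := hc.completeSpace_coe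
  obtain ⟨g, hg, hg0⟩ := Submodule.exists_mem_ne_zero_of_ne_bot
    (mt (Submodule.orthogonal_eq_bot_iff (K := cyc Z o)).1 hne)
  have hφ := h1 o (self_mem_cyc Z o)
  have hg2 : MemLp (fun t => (starRingEnd ℂ) (g t)) 2 ν := (Lp.memLp g).star
  obtain ⟨l, a1, a2, a3⟩ := exists_point hz hR hg2 (Lp.memLp (T o)) fun h => hg0 (by
    ext1
    filter_upwards [h, ae_ne_zero hZ ho h2 h3, Lp.coeFn_zero ℂ 2 ν] with t a b c
    rw [c]
    simpa [b] using a)
  have h4 : MemLp (T o) 4 ν := by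
    refine (memLp_norm_rpow_iff (q := 2) (Lp.memLp (T o)).1 (by simp) (by simp)).1 ?_
    have e : (4 : ℝ≥0∞) / 2 = 2 := by
      rw [show (4 : ℝ≥0∞) = 2 * 2 by norm_num, ENNReal.mul_div_cancel_right (by simp) (by simp)]
    rw [e]
    refine (memLp_congr_ae ((coe_T hZ ho h2 hφ).mono fun t a => ?_)).1 (Lp.memLp (T (T o))).norm
    simp [a, sq]
  have h5 : ∀ n : ℕ, MemLp (fun t => z t ^ n * T o t) 4 ν := fun n =>
    h4.of_le_mul (c := R ^ n) ((hz.measurable.pow_const n).aestronglyMeasurable.mul h4.1)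
      (Eventually.of_forall fun t => by
        rw [norm_mul, norm_pow]
        gcongr
        exact hR t)
  let e : ℕ → Lp ℂ 4 ν := fun n => (h5 n).toLp _
  have he : ∀ n, e n =ᵐ[ν] fun t => z t ^ n * T o t := fun n => (h5 n).coeFn_toLp
  set M := (Submodule.span ℂ (Set.range fun n : ℕ => e (n + 1) - l • e n)).topologicalClosure
    with hM
  let F : Lp ℂ 4 ν →L[ℂ] ℂ :=
    ((ContinuousLinearMap.mul ℂ ℂ).lpPairing ν 4 (ENNReal.ofReal (4 / 3))).flip (a1.toLp _)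
  have hF : ∀ f, F f = ∫ t, f t * ((starRingEnd ℂ) (g t) / (z t - l)) ∂ν := fun f => by
    refine ((ContinuousLinearMap.mul ℂ ℂ).lpPairing_eq_integral f _).trans
      (integral_congr_ae (a1.coeFn_toLp.mono fun t a => ?_))
    simp only [a, ContinuousLinearMap.mul_apply']
  have h6 : e 0 ∉ M := fun h => a3 (by
    have b1 := closure_zero (s := Set.range fun n : ℕ => e (n + 1) - l • e n) F (by
      rintro _ ⟨n, rfl⟩
      rw [hF, ← Submodule.inner_left_of_mem_orthogonal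
        (pow_inv Z (inv_cyc Z o) hφ n) hg, L2.inner_def]
      refine integral_congr_ae ?_
      filter_upwards [Lp.coeFn_sub (e (n + 1)) (l • e n), Lp.coeFn_smul l (e n), he n, he (n + 1),
        coe_pow hZ (T o) n, a2] with t c1 c2 c3 c4 c5 c6
      have c7 := sub_ne_zero.2 c6
      rw [c1, Pi.sub_apply, c2, Pi.smul_apply, c3, c4, c5, RCLike.inner_apply, smul_eq_mul]
      field_simp
      ring) _ h
    rw [hF] at b1
    rw [← b1]
    refine integral_congr_ae ((he 0).mono fun t a => ?_)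
    simp only [a, pow_zero, one_mul, mul_div_assoc])
  obtain ⟨r, b1, b2, b3⟩ := extremal (B := B2 ν) B2_comm norm_B2_self norm_B2_le M
    (Submodule.isClosed_topologicalClosure _) h6
  let o4 : Lp ℂ 4 ν := (memLp_const (1 : ℂ)).toLp _
  have ho4 : o4 =ᵐ[ν] fun _ => 1 := (memLp_const (1 : ℂ)).coeFn_toLp
  have h7 : ∀ n, B2 ν o4 (e n) ∈ cyc Z o := fun n => by
    convert pow_inv Z (inv_cyc Z o) hφ n using 1
    ext1
    filter_upwards [coe_B2 o4 (e n), ho4, he n, coe_pow hZ (T o) n] with t c1 c2 c3 c4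
    rw [c1, c2, c3, c4, one_mul]
  have h8 : B2 ν o4 r ∈ cyc Z o := by
    have c1 := closure_map (s := Set.range fun n : ℕ => e (n + 1) - l • e n) hc (B2 ν o4) (by
      rintro _ ⟨n, rfl⟩
      rw [map_sub, map_smul]
      exact Submodule.sub_mem _ (h7 _) (Submodule.smul_mem _ _ (h7 _))) _ b1
    simpa using Submodule.sub_mem _ (h7 0) c1
  have h9 : ∀ n, (Z ^ n) (T (B2 ν o4 r)) = B2 ν r (e n) := fun n => by
    ext1
    filter_upwards [coe_pow hZ (T (B2 ν o4 r)) n, coe_T hZ ho h2 h8, coe_B2 o4 r, ho4,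
      coe_B2 r (e n), he n] with t c1 c2 c3 c4 c5 c6
    rw [c1, c2, c3, c4, c5, c6]; ring
  refine ⟨l, B2 ν r r, _, h8, by simpa only [← h9 0, pow_zero, one_apply_eq_self] using b2,
    fun n => ?_⟩
  have c1 := b3 _ (mem_closure_span ⟨n, rfl⟩)
  rw [map_sub, map_smul, inner_sub_right, inner_smul_right, sub_eq_zero] at c1
  rw [h9, h9, c1]

end Pool.Agent.P.MP_65e938_an.Sub
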