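import Mathlib
import Pool.Agent.P.MP_65e938_an.Sub.Th
import Pool.Agent.P.MP_65e938_an.Sub.Spec

/-! A reductive operator is normal as soon as an injective operator in its commutant factors
through an intertwiner with a normal operator. -/

set_option autoImplicit false

open Filter Topology MeasureTheory ContinuousLinearMap
open scoped InnerProductSpace

namespace Pool.Agent.P.MP_65e938_an.Sub

variable {H K : Type*} [NormedAddCommGroup H] [InnerProductSpace ℂ H] [CompleteSpace H]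
  [NormedAddCommGroup K] [InnerProductSpace ℂ K] [CompleteSpace K]
  {A : H →L[ℂ] H} {N : K →L[ℂ] K} {X : H →L[ℂ] K} {Y : K →L[ℂ] H}

theorem cyc_zero (hred : Red A) (hN : IsStarNormal N) (hX : ∀ x, X (A x) = N (X x))
    (hV : Commute (Y ∘L X) A) (hinj : Function.Injective (Y ∘L X)) {u : H}
    (h0 : ∀ x ∈ cyc A u, x ∈ H1 A → x = 0) : u = 0 := by
  obtain ⟨ν, _, U, o, hU, ho, hUo, hM⟩ := exists_model (cfcHom (R := ℂ) hN) (X u)
  obtain ⟨Z, hZ, hUZ⟩ := hM ((ContinuousMap.id ℂ).restrict (spectrum ℂ N))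
  obtain ⟨Z', -, hUZ'⟩ := hM (star ((ContinuousMap.id ℂ).restrict (spectrum ℂ N)))
  rw [map_star, cfcHom_id hN, star_eq_adjoint] at hUZ'
  rw [cfcHom_id hN] at hUZ
  have hc := isClosed_cyc A u
  have hi := inv_cyc A u
  have hin : ∀ f g, ⟪U f, U g⟫_ℂ = ⟪f, g⟫_ℂ :=
    (LinearIsometry.mk U.toLinearMap hU).inner_map_map
  have hUU : ∀ f, adjoint U (U f) = f := fun f =>
    ext_inner_left ℂ fun g => by rw [adjoint_inner_right, hin]
  have hUN : ∀ k, adjoint U (N k) = Z (adjoint U k) := fun k => ext_inner_right ℂ fun f => by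
    rw [adjoint_inner_left, ← adjoint_inner_right, ← hUZ', ← adjoint_inner_left, ← hin (Z _),
      hUZ, ← adjoint_inner_right N, ← hUZ', hin]
  obtain ⟨X', hX'⟩ : ∃ X' : H →L[ℂ] Lp ℂ 2 ν, ∀ x, X' x = adjoint U (X x) :=
    ⟨adjoint U ∘L X, fun _ => rfl⟩
  obtain ⟨Y', hY'⟩ : ∃ Y' : Lp ℂ 2 ν →L[ℂ] H, ∀ f, Y' f = Y (U f) := ⟨Y ∘L U, fun _ => rfl⟩
  have f1 : ∀ n : ℕ, U ((Z ^ n) o) = X ((A ^ n) u) := fun n => by
    induction n with
    | zero => simpa using hUo
    | succ n ih => rw [pow_succ_apply, pow_succ_apply, hUZ, ih, hX]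
  have f2 : ∀ x ∈ cyc A u, X' x ∈ cyc Z o := closure_map (isClosed_cyc Z o) X' (by
    rintro _ ⟨n, rfl⟩
    rw [hX', ← f1, hUU]
    exact pow_mem_cyc Z o n)
  have f2' : ∀ x ∈ cyc A u, (U ∘L X' - X) x = 0 := closure_zero _ (by
    rintro _ ⟨n, rfl⟩
    rw [sub_apply, comp_apply, hX', ← f1, hUU, sub_self])
  have f3 : ∀ f ∈ cyc Z o, Y' f ∈ cyc A u := closure_map hc Y' (by
    rintro _ ⟨n, rfl⟩
    rw [hY', f1]
    exact hyper hred hc hi h0 hV _ (pow_mem_cyc A u n))
  have f4 : ∀ f ∈ cyc Z o, (A ∘L Y' - Y' ∘L Z) f = 0 := closure_zero _ (by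
    rintro _ ⟨n, rfl⟩
    rw [sub_apply, comp_apply, comp_apply, hY', hY', hUZ, f1, ← hX, sub_eq_zero]
    exact (congrArg (fun T : H →L[ℂ] H => T ((A ^ n) u)) hV.eq).symm)
  have f4' : ∀ f ∈ cyc Z o, A (Y' f) = Y' (Z f) := fun f hf => by
    have := f4 f hf
    rwa [sub_apply, sub_eq_zero] at this
  have f5 : ∀ x, X' (A x) = Z (X' x) := fun x => by rw [hX', hX', hX, hUN]
  have f6 : cyc A u ≤ (Submodule.span ℂ (Y' '' cyc Z o)).topologicalClosure := by
    refine dense_back hred hc hi h0 (Submodule.isClosed_topologicalClosure _)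
      (closure_map (Submodule.isClosed_topologicalClosure _) A ?_) (closure_le hc ?_) hV hinj
      fun x hx => mem_closure_span ⟨X' x, f2 x hx, ?_⟩
    · rintro _ ⟨f, hf, rfl⟩
      exact mem_closure_span ⟨Z f, inv_cyc Z o f hf, (f4' f hf).symm⟩
    · rintro _ ⟨f, hf, rfl⟩
      exact f3 f hf
    · have := f2' x hx
      rw [sub_apply, sub_eq_zero] at this
      exact (hY' _).trans (congrArg Y this)
  by_cases hne : cyc Z o = ⊤
  · have g1 := normal_case hred hN X (Y' ∘L adjoint U) hX fun k => by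
      rw [comp_apply, comp_apply, hUN]
      exact f4' _ (by rw [hne]; exact Submodule.mem_top)
    have g2 : ∀ x ∈ cyc A u, Df A x = 0 := fun x hx => closure_zero (Df A) (by
      rintro _ ⟨f, -, rfl⟩
      have := g1 (U f)
      rw [comp_apply, hUU] at this
      exact hinj (by rw [comp_apply, this, map_zero, map_zero])) x (f6 hx)
    exact h0 u (self_mem_cyc A u) (mem_H1.2 fun n => g2 _ (pow_mem_cyc A u n))
  · exfalso
    obtain ⟨R, hR⟩ := (spectrum.isCompact (𝕜 := ℂ) N).isBounded.exists_norm_le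
    obtain ⟨l, y, r, g1, g2, g3⟩ := thomson (T := X' ∘L Y') (z := Subtype.val)
      (MeasurableEmbedding.subtype_coe (spectrum.isClosed N).measurableSet)
      (fun t => hR t t.2) hZ ho (fun f hf => f2 _ (f3 f hf))
      (fun f hf => by rw [comp_apply, comp_apply, ← f4' f hf, f5]) (by
        have := closure_map (L := ((cyc Z o).map (X' ∘L Y').toLinearMap).topologicalClosure)
          (Submodule.isClosed_topologicalClosure _) X' (by
            rintro _ ⟨f, hf, rfl⟩
            exact Submodule.le_topologicalClosure _ ⟨f, hf, rfl⟩) u (f6 (self_mem_cyc A u))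
        rwa [hX', ← hUo, hUU] at this) hne
    have g4 : ∀ n : ℕ, X' ((A ^ n) (Y' r)) = (Z ^ n) (X' (Y' r)) := fun n => by
      induction n with
      | zero => simp
      | succ n ih => rw [pow_succ_apply, pow_succ_apply, f5, ih]
    have g5 := no_bpe hred hc hi h0 (f3 r g1) l (innerSL ℂ y ∘L X') fun n => by
      change ⟪y, X' ((A ^ (n + 1)) (Y' r))⟫_ℂ = l * ⟪y, X' ((A ^ n) (Y' r))⟫_ℂ
      rw [g4, g4]
      exact g3 n
    exact g2 g5

theorem normal_of_factor (hred : Red A) (hN : IsStarNormal N) (hX : ∀ x, X (A x) = N (X x))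
    (hV : Commute (Y ∘L X) A) (hinj : Function.Injective (Y ∘L X)) : IsStarNormal A := by
  have : CompleteSpace (H1 A) := isClosed_H1.completeSpace_coe
  have h1 : H1 A = ⊤ := by
    refine Submodule.orthogonal_eq_bot_iff.1 (eq_bot_iff.2 fun u hu => ?_)
    have hi : ∀ y ∈ (H1 A)ᗮ, A y ∈ (H1 A)ᗮ := fun y hy =>
      (Submodule.mem_orthogonal _ _).2 fun w hw => by
        rw [← adjoint_inner_left]
        exact Submodule.inner_right_of_mem_orthogonal (hred _ isClosed_H1 inv_H1 w hw) hy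
    have hle : cyc A u ≤ (H1 A)ᗮ := closure_le (H1 A).isClosed_orthogonal (by
      rintro _ ⟨n, rfl⟩
      exact pow_inv A hi hu n)
    exact cyc_zero hred hN hX hV hinj fun x a b =>
      inner_self_eq_zero.1 (Submodule.inner_right_of_mem_orthogonal b (hle a))
  refine ⟨sub_eq_zero.1 ?_⟩
  ext x
  simpa [Df] using mem_H1.1 (h1 ▸ Submodule.mem_top : x ∈ H1 A) 0

end Pool.Agent.P.MP_65e938_an.Sub
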